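import Pool.Agent.Run7.h58.AR.Iface

/-! The piece BA for MP_0d9f0f_an. -/

set_option autoImplicit false

open MeasureTheory Filter Topology Set Complex

namespace Pool.Agent.Run7.h595.AR

open Pool.Agent.Run7.h58.AR

theorem D_sub : D ⊆ D1 := by
  intro z hz
  have hz' : ‖z‖ < 1 := by simpa [D] using hz
  refine ⟨by simpa using hz'.le, ?_⟩
  intro h
  rw [mem_singleton_iff] at h
  rw [h, norm_one] at hz'
  exact lt_irrefl _ hz'

theorem cay_re {w : ℂ} (hw : ‖w‖ < 1) : 0 ≤ ((1 + w) / (1 - w)).re := by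
  have h1 : w.re ^ 2 + w.im ^ 2 < 1 := by
    have h2 := Complex.sq_norm w
    rw [Complex.normSq_apply] at h2
    have h3 : ‖w‖ ^ 2 < 1 := by
      have := norm_nonneg w
      nlinarith
    nlinarith
  rw [Complex.div_re, ← add_div]
  apply div_nonneg _ (Complex.normSq_nonneg _)
  simp only [Complex.add_re, Complex.one_re, Complex.sub_re, Complex.add_im, Complex.one_im,
    Complex.sub_im]
  nlinarith

theorem cay_norm {w : ℂ} {c : ℝ} (hc : ‖w‖ ≤ c) (hc1 : c < 1) :
    ‖(1 + w) / (1 - w)‖ ≤ 2 / (1 - c) := by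
  rw [norm_div]
  have h1 : ‖1 + w‖ ≤ 2 := (norm_add_le _ _).trans (by rw [norm_one]; linarith)
  have h2 : 1 - c ≤ ‖1 - w‖ := by
    have := norm_sub_norm_le (1 : ℂ) w
    rw [norm_one] at this
    linarith
  exact div_le_div₀ (by norm_num) h1 (by linarith) h2

theorem loc (hHUN : S_HUN) {F : ℂ → ℂ} {σ : Measure ℝ} (hF : DifferentiableOn ℂ F D)
    (hσ : HerglotzMeasure F σ) {a b C : ℝ} (ha : -Real.pi ≤ a) (hb : b ≤ Real.pi)
    (hC0 : 0 ≤ C) (hC : ∀ θ ∈ Ioo a b, ∀ r : ℝ, 0 < r → r < 1 → (F (r * exp (θ * I))).re ≤ C)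
    {s : Set ℝ} (hs : s ⊆ Ioo a b) (h0 : volume s = 0) : σ s = 0 := by
  have := hσ.1
  have key : σ s ≤ (Real.toNNReal (C / Real.pi) • (volume : Measure ℝ)) s := by
    refine (Besicovitch.vitaliFamily σ).measure_le_of_frequently_le
      (Real.toNNReal (C / Real.pi) • (volume : Measure ℝ)) Measure.AbsolutelyContinuous.rfl s ?_
    intro x hx
    have hx' := hs hx
    have hev : ∀ᶠ r : ℝ in 𝓝[>] 0, σ (Metric.closedBall x r) ≤
        (Real.toNNReal (C / Real.pi) • (volume : Measure ℝ)) (Metric.closedBall x r) := by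
      have hpos : 0 < min (x - a) (b - x) / 2 := by
        have h1 := hx'.1
        have h2 := hx'.2
        have : 0 < min (x - a) (b - x) := lt_min (by linarith) (by linarith)
        linarith
      filter_upwards [Ioo_mem_nhdsGT hpos] with r hr
      have hr0 := hr.1
      have hr1 : 2 * r < x - a := by
        have := min_le_left (x - a) (b - x)
        linarith [hr.2]
      have hr2 : 2 * r < b - x := by
        have := min_le_right (x - a) (b - x)
        linarith [hr.2]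
      have h1 := hHUN F σ (x - 2 * r) (x + 2 * r) C hF hσ (by linarith) (by linarith)
        (by linarith) (fun θ hθ => hC θ ⟨by linarith [hθ.1], by linarith [hθ.2]⟩)
      have h2 : σ (Metric.closedBall x r) ≤ σ (Ioo (x - 2 * r) (x + 2 * r)) := by
        refine measure_mono ?_
        rw [Real.closedBall_eq_Icc]
        intro y hy
        exact ⟨by linarith [hy.1], by linarith [hy.2]⟩
      refine (h2.trans h1).trans (le_of_eq ?_)
      rw [Measure.smul_apply, Real.volume_closedBall]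
      show ENNReal.ofReal _ = ENNReal.ofReal (C / Real.pi) * ENNReal.ofReal (2 * r)
      rw [← ENNReal.ofReal_mul (div_nonneg hC0 Real.pi_pos.le)]
      congr 1
      field_simp
      ring
    exact (Besicovitch.tendsto_filterAt σ x).frequently hev.frequently
  rw [Measure.smul_apply, h0, smul_zero] at key
  exact nonpos_iff_eq_zero.1 key

theorem exp_ne_one {θ : ℝ} (h1 : -Real.pi ≤ θ) (h2 : θ ≤ Real.pi) (h0 : θ ≠ 0) :
    exp (θ * I) ≠ 1 := by
  intro h
  rw [Complex.exp_eq_one_iff] at h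
  obtain ⟨n, hn⟩ := h
  have h3 : (θ : ℂ) = n * (2 * Real.pi) := by
    have : (θ : ℂ) * I = (n * (2 * Real.pi)) * I := by rw [hn]; ring
    exact mul_right_cancel₀ I_ne_zero this
  have h4 : θ = n * (2 * Real.pi) := by exact_mod_cast h3
  have hpi := Real.pi_pos
  rcases lt_trichotomy n 0 with hn0 | hn0 | hn0
  · have : (n : ℝ) ≤ -1 := by exact_mod_cast Int.le_sub_one_of_lt hn0
    nlinarith
  · rw [hn0] at h4
    apply h0
    simpa using h4
  · have : (1 : ℝ) ≤ n := by exact_mod_cast hn0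
    nlinarith

theorem sector {χ : ℂ → ℂ} (hc : ContinuousOn χ D1) (hlt : ∀ z ∈ D1, ‖χ z‖ < 1) {a b : ℝ}
    (ha : -Real.pi ≤ a) (hb : b ≤ Real.pi) (h0 : ∀ θ ∈ Icc a b, θ ≠ 0) :
    ∃ M : ℝ, M < 1 ∧ 0 ≤ M ∧ ∀ θ ∈ Icc a b, ∀ r : ℝ, 0 ≤ r → r ≤ 1 → ‖χ (r * exp (θ * I))‖ ≤ M := by
  rcases lt_or_ge b a with hab | hab
  · exact ⟨0, by norm_num, le_rfl, fun θ hθ => absurd (hθ.1.trans hθ.2) (not_le.2 hab)⟩
  have hmaps : ∀ p ∈ Icc (0 : ℝ) 1 ×ˢ Icc a b, ((p.1 : ℂ) * exp (p.2 * I)) ∈ D1 := by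
    rintro ⟨r, θ⟩ ⟨hr, hθ⟩
    have hn : ‖(r : ℂ) * exp (θ * I)‖ = r := by
      rw [norm_mul, Complex.norm_exp_ofReal_mul_I, mul_one, Complex.norm_real, Real.norm_eq_abs,
        abs_of_nonneg hr.1]
    refine ⟨?_, ?_⟩
    · show (r : ℂ) * exp (θ * I) ∈ Metric.closedBall 0 1
      rw [mem_closedBall_zero_iff, hn]
      exact hr.2
    intro h
    rw [mem_singleton_iff] at h
    have hr1 : r = 1 := by
      rw [← hn]
      show ‖((r, θ).1 : ℂ) * exp ((r, θ).2 * I)‖ = 1
      rw [h, norm_one]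
    refine exp_ne_one (ha.trans hθ.1) (hθ.2.trans hb) (h0 θ hθ) ?_
    have h' : (r : ℂ) * exp (θ * I) = 1 := h
    rwa [hr1, Complex.ofReal_one, one_mul] at h'
  have hcont : ContinuousOn (fun p : ℝ × ℝ => ‖χ ((p.1 : ℂ) * exp (p.2 * I))‖)
      (Icc (0 : ℝ) 1 ×ˢ Icc a b) := by
    refine ContinuousOn.norm (hc.comp ?_ hmaps)
    exact Continuous.continuousOn (by fun_prop)
  have hcomp : IsCompact (Icc (0 : ℝ) 1 ×ˢ Icc a b) := isCompact_Icc.prod isCompact_Icc
  obtain ⟨p, hp, hmax⟩ := hcomp.exists_isMaxOn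
    ⟨((0 : ℝ), a), ⟨⟨le_rfl, zero_le_one⟩, ⟨le_rfl, hab⟩⟩⟩ hcont
  refine ⟨_, hlt _ (hmaps p hp), norm_nonneg _, fun θ hθ r hr0 hr1 => ?_⟩
  exact hmax (show ((r, θ) : ℝ × ℝ) ∈ Icc (0 : ℝ) 1 ×ˢ Icc a b from ⟨⟨hr0, hr1⟩, hθ⟩)

theorem t_BA : S_BA := by
  intro hHEX hHUN hATOM χ hd hc hlt h0 ht
  refine ⟨⟨hd, fun z hz => (hlt z (D_sub hz)).le⟩, h0, fun E hE => ?_⟩
  have hw : ∀ z ∈ D, ‖χ z * E z‖ ≤ ‖χ z‖ := by
    intro z hz
    rw [norm_mul]
    exact mul_le_of_le_one_right (norm_nonneg _) (hE.2 z hz)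
  have hw1 : ∀ z ∈ D, ‖χ z * E z‖ < 1 := fun z hz => (hw z hz).trans_lt (hlt z (D_sub hz))
  have hne : ∀ z ∈ D, 1 - χ z * E z ≠ 0 := by
    intro z hz h
    have h1 := hw1 z hz
    rw [← sub_eq_zero.1 h, norm_one] at h1
    exact lt_irrefl _ h1
  have hF : DifferentiableOn ℂ (cay χ E) D := by
    unfold cay
    exact ((differentiableOn_const _).add (hd.mul hE.1)).div
      ((differentiableOn_const _).sub (hd.mul hE.1)) hne
  have hre : ∀ z ∈ D, 0 ≤ (cay χ E z).re := fun z hz => cay_re (hw1 z hz)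
  have hF0 : cay χ E 0 = 1 := by
    unfold cay
    rw [h0]
    simp
  have hnorm : ∀ z ∈ D, ∀ M : ℝ, ‖χ z‖ ≤ M → M < 1 → ‖cay χ E z‖ ≤ 2 / (1 - M) :=
    fun z hz M hM hM1 => cay_norm ((hw z hz).trans hM) hM1
  refine ⟨hHEX _ hF hre hF0, fun σ hσ => ?_⟩
  have := hσ.1
  have hpi := Real.pi_pos
  have hmem : ∀ (θ r : ℝ), 0 ≤ r → r < 1 → (r : ℂ) * exp (θ * I) ∈ D := by
    intro θ r hr0 hr1
    have hn : ‖(r : ℂ) * exp (θ * I)‖ = r := by
      rw [norm_mul, Complex.norm_exp_ofReal_mul_I, mul_one, Complex.norm_real, Real.norm_eq_abs,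
        abs_of_nonneg hr0]
    show (r : ℂ) * exp (θ * I) ∈ Metric.ball 0 1
    rw [mem_ball_zero_iff, hn]
    exact hr1
  -- null sets in an interval away from zero
  have hint : ∀ a b : ℝ, -Real.pi ≤ a → b ≤ Real.pi → (∀ θ ∈ Icc a b, θ ≠ 0) → ∀ s : Set ℝ,
      s ⊆ Ioo a b → volume s = 0 → σ s = 0 := by
    intro a b ha hb h0' s hs hs0
    obtain ⟨M, hM1, hM0, hM⟩ := sector hc hlt ha hb h0'
    refine loc hHUN hF hσ ha hb (C := 2 / (1 - M)) (div_nonneg (by norm_num) (by linarith)) ?_ hs hs0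
    intro θ hθ r hr0 hr1
    exact (Complex.re_le_norm _).trans (hnorm _ (hmem θ r hr0.le hr1) M
      (hM θ ⟨hθ.1.le, hθ.2.le⟩ r hr0.le hr1.le) hM1)
  -- the atom at zero
  have hatom0 : σ {0} = 0 := by
    have h1 := hATOM (cay χ E) σ 0 hσ ⟨by linarith, hpi.le⟩
    have h2 : Tendsto (fun r : ℝ => ((1 - r) / 2 : ℂ) * cay χ E (r * exp ((0 : ℝ) * I))) (𝓝[<] 1)
        (𝓝 0) := by
      rw [tendsto_zero_iff_norm_tendsto_zero]
      refine squeeze_zero' (Eventually.of_forall fun r => norm_nonneg _) ?_ ht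
      filter_upwards [Ioo_mem_nhdsLT (show (0 : ℝ) < 1 by norm_num)] with r hr
      have hr' : (r : ℂ) * exp ((0 : ℝ) * I) = r := by simp
      have hrD : (r : ℂ) ∈ D := by
        have := hmem 0 r hr.1.le hr.2
        rwa [hr'] at this
      have hχ := hlt _ (D_sub hrD)
      rw [hr', norm_mul]
      have h3 := hnorm _ hrD _ le_rfl hχ
      have h4 : ‖((1 - r) / 2 : ℂ)‖ = (1 - r) / 2 := by
        have : ((1 - r) / 2 : ℂ) = (((1 - r) / 2 : ℝ) : ℂ) := by push_cast; ring
        rw [this, Complex.norm_real, Real.norm_eq_abs, abs_of_nonneg (by linarith [hr.2])]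
      rw [h4]
      calc (1 - r) / 2 * ‖cay χ E r‖ ≤ (1 - r) / 2 * (2 / (1 - ‖χ r‖)) :=
            mul_le_mul_of_nonneg_left h3 (by linarith [hr.2])
        _ = (1 - r) / (1 - ‖χ r‖) := by field_simp
    have h5 := tendsto_nhds_unique h1 h2
    have h6 : (σ {0}).toReal = 0 := by exact_mod_cast h5
    rcases (ENNReal.toReal_eq_zero_iff _).1 h6 with h7 | h7
    · exact h7
    · exact absurd h7 (measure_ne_top _ _)
  -- the atom at pi
  have hatompi : σ {Real.pi} = 0 := by
    have h1 := hATOM (cay χ E) σ Real.pi hσ ⟨by linarith, le_rfl⟩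
    obtain ⟨M, hM1, hM0, hM⟩ := sector hc hlt (a := Real.pi / 2) (b := Real.pi) (by linarith) le_rfl
      (fun θ hθ => by have := hθ.1; intro h; linarith)
    have h2 : Tendsto (fun r : ℝ => ((1 - r) / 2 : ℂ) * cay χ E (r * exp ((Real.pi : ℝ) * I)))
        (𝓝[<] 1) (𝓝 0) := by
      rw [tendsto_zero_iff_norm_tendsto_zero]
      have hlim : Tendsto (fun r : ℝ => (1 - r) / (1 - M)) (𝓝[<] 1) (𝓝 0) := by
        have : Tendsto (fun r : ℝ => (1 - r) / (1 - M)) (𝓝 1) (𝓝 ((1 - 1) / (1 - M))) :=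
          ((tendsto_const_nhds).sub tendsto_id).div_const _
        rw [sub_self, zero_div] at this
        exact this.mono_left nhdsWithin_le_nhds
      refine squeeze_zero' (Eventually.of_forall fun r => norm_nonneg _) ?_ hlim
      filter_upwards [Ioo_mem_nhdsLT (show (0 : ℝ) < 1 by norm_num)] with r hr
      rw [norm_mul]
      have h3 := hnorm _ (hmem Real.pi r hr.1.le hr.2) M
        (hM Real.pi ⟨by linarith, le_rfl⟩ r hr.1.le hr.2.le) hM1
      have h4 : ‖((1 - r) / 2 : ℂ)‖ = (1 - r) / 2 := by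
        have : ((1 - r) / 2 : ℂ) = (((1 - r) / 2 : ℝ) : ℂ) := by push_cast; ring
        rw [this, Complex.norm_real, Real.norm_eq_abs, abs_of_nonneg (by linarith [hr.2])]
      rw [h4]
      calc (1 - r) / 2 * ‖cay χ E (r * exp ((Real.pi : ℝ) * I))‖
            ≤ (1 - r) / 2 * (2 / (1 - M)) := mul_le_mul_of_nonneg_left h3 (by linarith [hr.2])
        _ = (1 - r) / (1 - M) := by field_simp
    have h5 := tendsto_nhds_unique h1 h2
    have h6 : (σ {Real.pi}).toReal = 0 := by exact_mod_cast h5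
    rcases (ENNReal.toReal_eq_zero_iff _).1 h6 with h7 | h7
    · exact h7
    · exact absurd h7 (measure_ne_top _ _)
  intro A hA
  have hcov : A ⊆ ((Ioc (-Real.pi) Real.pi)ᶜ ∪ ({0} ∪ {Real.pi})) ∪
      ((⋃ n : ℕ, A ∩ Ioo (Real.pi / (n + 2)) Real.pi) ∪
        ⋃ n : ℕ, A ∩ Ioo (-Real.pi) (-(Real.pi / (n + 2)))) := by
    intro x hx
    by_cases h1 : x ∈ Ioc (-Real.pi) Real.pi
    · rcases lt_trichotomy x 0 with h2 | h2 | h2
      · right; right
        obtain ⟨n, hn⟩ := exists_nat_gt (Real.pi / (-x))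
        rw [mem_iUnion]
        refine ⟨n, hx, h1.1, ?_⟩
        have hx0 : 0 < -x := by linarith
        have h3 : Real.pi / (n + 2) < -x := by
          rw [div_lt_iff₀ (by positivity)]
          rw [div_lt_iff₀ hx0] at hn
          nlinarith
        linarith
      · left; right; left
        exact h2
      · rcases eq_or_lt_of_le h1.2 with h4 | h4
        · left; right; right
          exact h4
        · right; left
          obtain ⟨n, hn⟩ := exists_nat_gt (Real.pi / x)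
          rw [mem_iUnion]
          refine ⟨n, hx, ?_, h4⟩
          rw [div_lt_iff₀ (by positivity)]
          rw [div_lt_iff₀ h2] at hn
          nlinarith
    · left; left
      exact h1
  refine measure_mono_null hcov (measure_union_null (measure_union_null hσ.2.1
    (measure_union_null hatom0 hatompi)) (measure_union_null ?_ ?_))
  · rw [measure_iUnion_null_iff]
    intro n
    have hn : 0 < Real.pi / ((n : ℝ) + 2) := by positivity
    refine hint (Real.pi / (n + 2)) Real.pi (by linarith) le_rfl (fun θ hθ h => ?_) _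
      inter_subset_right (measure_mono_null inter_subset_left hA)
    have := hθ.1
    rw [h] at this
    linarith
  · rw [measure_iUnion_null_iff]
    intro n
    have hn : 0 < Real.pi / ((n : ℝ) + 2) := by positivity
    refine hint (-Real.pi) (-(Real.pi / (n + 2))) le_rfl (by linarith) (fun θ hθ h => ?_) _
      inter_subset_right (measure_mono_null inter_subset_left hA)
    have := hθ.2
    rw [h] at this
    linarith

end Pool.Agent.Run7.h595.AR
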